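import Pool.Agent.helper2.BB.Spec

set_option autoImplicit false

namespace BB

open Metric MeasureTheory Set Filter Topology Asymptotics
open Pool.Agent.helper37.PR

theorem C4_alg (W0 W1 W2 X s : ℂ) (h : W1 ≠ 0) :
    X * ((0 + 1 * W0 * 0 - 1 ^ 2 * W0 ^ 2 / 2 - 1 * W1 * ((0 - 1 * W0) * 1) - 1 ^ 2 * W1 ^ 2 / 2) +
      s * W1 * ((0 - 1 * W0) * 1 + 1 * W1) - s ^ 2 * W1 ^ 2 / 2 -
      s * W2 * (((0 - 1 * W0) * 1 + 1 * W1 - s * W1) * (W2 / W1)) - s ^ 2 * W2 ^ 2 / 2 +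
      -1 * W2 * (((0 - 1 * W0) * 1 + 1 * W1 - s * W1) * (W2 / W1) + s * W2) -
      (-1) ^ 2 * W2 ^ 2 / 2 -
      -1 * (((0 - 1 * W0) * 1 + 1 * W1 - s * W1) * (W2 / W1) + s * W2 - -1 * W2) - (-1) ^ 2 / 2) =
    -(X / 2) * ((1 - W0 / W1 + -s) ^ 2 * (W1 ^ 2 - W2 ^ 2) +
      ((1 - W0 / W1) * W2 + W2 - 1) ^ 2) := by
  field_simp
  ring

theorem C4_Kb {w : ℂ} (h : w ≠ 0) (h1 : ‖w‖ < 1) : Kb w ≠ 0 := by
  unfold Kb
  have h2 : 1 - w ≠ 0 := by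
    intro h3
    have h4 : w = 1 := (sub_eq_zero.1 h3).symm
    rw [h4, norm_one] at h1
    exact lt_irrefl _ h1
  exact div_ne_zero h (pow_ne_zero 2 h2)

theorem C4_Kb0 : Kb 0 = 0 := by
  unfold Kb
  rw [zero_div]

theorem C4 (hA1 : A1_stmt) (hA2 : A2_stmt) (hC4a : C4a_stmt) (hC4b : C4b_stmt) : C4_stmt := by
  intro δ lam ζ hδ hδ' hζ hζ1
  have hq0 : 0 < 3 * δ := by linarith
  have hq1 : 3 * δ ≤ 1 := by linarith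
  obtain ⟨n0, k0, s0, -, r0, b0, -⟩ := hA2 (3 * δ) ζ hq0 hq1 hζ1
  set A0 := psi (3 * δ) ζ with hA0
  have hδc : (δ : ℂ) ≠ 0 := by exact_mod_cast hδ.ne'
  have hK : Kb ζ ≠ 0 := C4_Kb hζ hζ1
  have hK0 : Kb A0 = 3 * δ * Kb ζ := by
    rw [k0]; push_cast; ring
  have hA0ne : A0 ≠ 0 := by
    intro h
    rw [h, C4_Kb0] at hK0
    exact mul_ne_zero (mul_ne_zero (by norm_num) hδc) hK hK0.symm
  obtain ⟨n1, k1, -, -, r1, b1, -⟩ := hA2 (2 / 3) A0 (by norm_num) (by norm_num) n0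
  set A1 := psi (2 / 3) A0 with hA1'
  have hK1 : Kb A1 = 2 * δ * Kb ζ := by
    rw [k1, hK0]; push_cast; ring
  have hA1ne : A1 ≠ 0 := by
    intro h
    rw [h, C4_Kb0] at hK1
    exact mul_ne_zero (mul_ne_zero (by norm_num) hδc) hK hK1.symm
  obtain ⟨n2, k2, -, -, r2, b2, -⟩ := hA2 (1 / 2) A1 (by norm_num) (by norm_num) n1
  set A2 := psi (1 / 2) A1 with hA2'
  have hK2 : Kb A2 = δ * Kb ζ := by
    rw [k2, hK1]; push_cast; ring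
  have hA2ne : A2 ≠ 0 := by
    intro h
    rw [h, C4_Kb0] at hK2
    exact mul_ne_zero hδc hK hK2.symm
  have hW0 : Rf A0 = Wd (3 * δ) (Kb ζ) := by
    rw [r0]; unfold Qf Wd; rw [b0]; push_cast; rfl
  have hW1 : Rf A1 = Wd (2 * δ) (Kb ζ) := by
    rw [r1]; unfold Qf Wd; rw [b1, hK0]; congr 1; push_cast; ring
  have hW2 : Rf A2 = Wd δ (Kb ζ) := by
    rw [r2]; unfold Qf Wd; rw [b2, hK1]; congr 1; push_cast; ring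
  have hW1ne : Rf A1 ≠ 0 := by
    intro h
    have h1 := (hA1 1 A1 one_pos le_rfl n1).2.1
    rw [h] at h1
    exact lt_irrefl _ h1
  -- the first point
  have hP0 : stg true 0 (3 * δ) (ζ, 0) = (A0, 0) := by
    unfold stg
    simp only [Complex.cos_zero, Complex.sin_zero, mul_zero, add_zero, mul_one, sub_zero,
      sub_self]
    rw [s0]
  have hJ0 : Jt (fun _ : ℝ => (A0, 0)) A0 0 0 := by
    refine ⟨?_, ?_⟩
    · simp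
    · simp
  have hJ1 := hC4a _ A0 0 0 1 (2 / 3) true hA0ne n0 (by norm_num) (by norm_num) hJ0
  have hJ2 := hC4a _ A1 _ _ (-(lam * δ)) (1 / 2) false hA1ne n1 (by norm_num) (by norm_num) hJ1
  have h3 := hC4b _ A2 _ _ (-1) hA2ne n2 hJ2
  have h4 := h3.const_mul_left ((δ : ℂ)⁻¹)
  refine h4.congr_left ?_
  intro κ
  have e1 : FF δ lam κ ζ = (δ : ℂ)⁻¹ * fin (((-1 * κ : ℝ)) : ℂ)
      (stg false ((-(lam * δ) * κ : ℝ) : ℂ) (1 / 2) (stg true ((1 * κ : ℝ) : ℂ) (2 / 3) (A0, 0))) := by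
    have c1 : ((-1 * κ : ℝ) : ℂ) = -(κ : ℂ) := by push_cast; ring
    have c2 : ((-(lam * δ) * κ : ℝ) : ℂ) = -((lam : ℂ) * δ * κ) := by push_cast; ring
    have c3 : ((1 * κ : ℝ) : ℂ) = (κ : ℂ) := by rw [one_mul]
    rw [c1, c2, c3]
    unfold FF
    rw [hP0]
  rw [e1]
  simp only [cond_true, cond_false]
  have e2 : DD δ lam (Kb ζ) = (δ : ℂ)⁻¹ * (Kb A2 *
      ((0 + 1 * Rf A0 * 0 - 1 ^ 2 * Rf A0 ^ 2 / 2 - 1 * Rf A1 * ((0 - 1 * Rf A0) * 1) -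
        1 ^ 2 * Rf A1 ^ 2 / 2) +
      (-((lam : ℂ) * δ)) * Rf A1 * ((0 - 1 * Rf A0) * 1 + 1 * Rf A1) -
      (-((lam : ℂ) * δ)) ^ 2 * Rf A1 ^ 2 / 2 -
      (-((lam : ℂ) * δ)) * Rf A2 * (((0 - 1 * Rf A0) * 1 + 1 * Rf A1 - (-((lam : ℂ) * δ)) * Rf A1) *
        (Rf A2 / Rf A1)) - (-((lam : ℂ) * δ)) ^ 2 * Rf A2 ^ 2 / 2 +
      -1 * Rf A2 * (((0 - 1 * Rf A0) * 1 + 1 * Rf A1 - (-((lam : ℂ) * δ)) * Rf A1) *
        (Rf A2 / Rf A1) + (-((lam : ℂ) * δ)) * Rf A2) -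
      (-1) ^ 2 * Rf A2 ^ 2 / 2 -
      -1 * (((0 - 1 * Rf A0) * 1 + 1 * Rf A1 - (-((lam : ℂ) * δ)) * Rf A1) * (Rf A2 / Rf A1) +
        (-((lam : ℂ) * δ)) * Rf A2 - -1 * Rf A2) - (-1) ^ 2 / 2)) := by
    rw [hK2, mul_assoc, inv_mul_cancel_left₀ hδc, C4_alg _ _ _ _ _ hW1ne]
    unfold DD
    rw [hW0, hW1, hW2, neg_neg]
  rw [e2]
  have e3 : Kb ζ = (δ : ℂ)⁻¹ * Kb A2 := by
    rw [hK2, inv_mul_cancel_left₀ hδc]
  rw [e3]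
  push_cast
  ring

end BB
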